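import Pool.Agent.H70.CG.All2
import Pool.Agent.H70.CG.STR
import Pool.Agent.H70.CG.GREAL
import Pool.Agent.H70.CG.GRAPH2
import Pool.Agent.H70.CG.CRSY

/-!
# A gamma-balanced contention resolution scheme for matchings of bipartite graphs

`gamma = 2 - 2 Om - Om ^ 2` with `Om * exp Om = 1`.
-/

namespace Pool.Agent.Results.MP_7470b6_lc.BipartiteGamma

open Finset

section
variable {V : Type} [Fintype V] [DecidableEq V] (G : SimpleGraph V) [DecidableRel G.Adj]

/-- `M` is a matching of `G`: no two different edges of `M` have a common vertex. -/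
def IsMatching (M : Finset G.edgeSet) : Prop :=
  ∀ e ∈ M, ∀ e' ∈ M, ∀ v : V, v ∈ e.1 → v ∈ e'.1 → e = e'

/-- The matching polytope: the convex hull of the indicator vectors of the matchings. Its
points are the fractional matchings. -/
def MatchingPolytope : Set (G.edgeSet → ℝ) :=
  convexHull ℝ {x | ∃ M : Finset G.edgeSet, IsMatching G M ∧ x = fun e => if e ∈ M then 1 else 0}

/-- Probability that the random set `R(x)`, which contains every edge `e` independently with
probability `x e`, is `S`. -/
noncomputable def probR (x : G.edgeSet → ℝ) (S : Finset G.edgeSet) : ℝ :=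
  (∏ e ∈ S, x e) * ∏ e ∈ Sᶜ, (1 - x e)

/-- A contention resolution scheme for `G` and `x`: for every realisation `S` a probability
distribution `ph S` on the matchings contained in `S`. -/
structure IsScheme (ph : Finset G.edgeSet → Finset G.edgeSet → ℝ) : Prop where
  nonneg : ∀ S M, 0 ≤ ph S M
  total : ∀ S, ∑ M : Finset G.edgeSet, ph S M = 1
  supp : ∀ S M, ph S M ≠ 0 → M ⊆ S ∧ IsMatching G M

/-- The conditional probability that the scheme selects `e`, given that `e` is in `R(x)`. -/
noncomputable def condSel (x : G.edgeSet → ℝ) (ph : Finset G.edgeSet → Finset G.edgeSet → ℝ)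
    (e : G.edgeSet) : ℝ :=
  (∑ S : Finset G.edgeSet, if e ∈ S then
      probR G x S * ∑ M : Finset G.edgeSet, (if e ∈ M then ph S M else 0) else 0) /
    (∑ S : Finset G.edgeSet, if e ∈ S then probR G x S else 0)

end

/-- There is exactly one real `Om` with `Om * exp Om = 1`, and for every finite bipartite graph
and every fractional matching `x` there is a contention resolution scheme that selects every edge
`e` with `x e > 0` with conditional probability at least `2 - 2 Om - Om ^ 2 + x e / 41`. -/
theorem result :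
    (∃ Om : ℝ, Om * Real.exp Om = 1 ∧ ∀ Om' : ℝ, Om' * Real.exp Om' = 1 → Om' = Om) ∧
    ∀ Om : ℝ, Om * Real.exp Om = 1 →
      ∀ (V : Type) [Fintype V] [DecidableEq V] (G : SimpleGraph V) [DecidableRel G.Adj],
        G.Colorable 2 → ∀ x ∈ MatchingPolytope G,
          ∃ ph : Finset G.edgeSet → Finset G.edgeSet → ℝ, IsScheme G ph ∧
            ∀ e, 0 < x e → (2 - 2 * Om - Om ^ 2) + x e / 41 ≤ condSel G x ph e := by
  refine ⟨?_, ?_⟩
  · obtain ⟨Om, ⟨h1, _, _⟩, h2⟩ := H70.CG.NUMA.om
    exact ⟨Om, h1, h2⟩
  · intro Om hOm V _ _ G _ hcol x hx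
    obtain ⟨ph, h1, h2⟩ := H70.CG.GRAPH2.graph2 _ _
      (H70.CG.GREAL.gapd H70.CG.gint_all H70.CG.STR.str Om hOm) H70.CG.CRSY.crsy V G hcol x hx
    refine ⟨ph, ⟨h1.nonneg, h1.total, h1.supp⟩, fun e he => ?_⟩
    have := h2 e he
    have e1 : (2 - 2 * Om - Om ^ 2) + 1 / 41 * x e = (2 - 2 * Om - Om ^ 2) + x e / 41 := by ring
    rw [e1] at this
    exact this

end Pool.Agent.Results.MP_7470b6_lc.BipartiteGamma
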